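import Pool.Agent.QUD.StmtsX

/-!
# Squad QUD, row END: the two ends of a side
-/

set_option autoImplicit false

namespace Pool.Agent.QUD.H34

open MeasureTheory Complex Filter Topology ProbabilityTheory Pool.Agent.H16Iso Pool.Agent.H62T
open Pool.Agent.AEU Pool.Agent.XQ

theorem endS_ip_add (a b c : ℂ) (r : ℝ) : ip a (b + (r : ℂ) * c) = ip a b + r * ip a c := by
  unfold ip
  simp
  ring

theorem endS_ip_I (a b : ℂ) : ip b (I * a) = dt a b := by
  unfold ip dt
  simp
  ring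

theorem endS_perp (a : ℂ) : ip a (I * a) = 0 := by
  rw [endS_ip_I]
  unfold dt
  ring

/-- one end of a side -/
theorem endS_half (X : Finset HP) (hc : IsCompact (Cl X)) (e : HP) (he : e ∈ X) (x0 : ℂ)
    (h0 : ip e.1 x0 = e.2) (h1 : ∀ t ∈ X, t ≠ e → ip t.1 x0 < t.2) (u : ℂ) (hu : u ≠ 0)
    (hp : ip e.1 u = 0) :
    ∃ (t : HP) (w : ℂ) (r : ℝ), VxOf X e t w ∧ 0 < r ∧ w = x0 + (r : ℂ) * u := by
  have hcont : Continuous fun r : ℝ => x0 + (r : ℂ) * u := by fun_prop
  set T : Set ℝ := {r | 0 ≤ r ∧ x0 + (r : ℂ) * u ∈ Cl X} with hT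
  have hx0 : x0 ∈ Cl X := by
    intro s hs
    by_cases hse : s = e
    · rw [hse, h0]
    · exact (h1 s hs hse).le
  have h0T : (0 : ℝ) ∈ T := ⟨le_refl 0, by simpa using hx0⟩
  have hTcl : IsClosed T := by
    have e1 : T = Set.Ici 0 ∩ (fun r : ℝ => x0 + (r : ℂ) * u) ⁻¹' Cl X := rfl
    rw [e1]
    exact isClosed_Ici.inter (hc.isClosed.preimage hcont)
  have hTb : Bornology.IsBounded T := by
    obtain ⟨R, hR⟩ := hc.isBounded.exists_norm_le
    rw [isBounded_iff_forall_norm_le]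
    refine ⟨(R + ‖x0‖) / ‖u‖, fun r hr => ?_⟩
    have hu0 : 0 < ‖u‖ := norm_pos_iff.mpr hu
    rw [le_div_iff₀ hu0]
    have h2 := hR _ hr.2
    have h3 : ‖(r : ℂ) * u‖ ≤ ‖x0 + (r : ℂ) * u‖ + ‖x0‖ := by
      have h4 : (r : ℂ) * u = (x0 + (r : ℂ) * u) - x0 := by ring
      calc ‖(r : ℂ) * u‖ = ‖(x0 + (r : ℂ) * u) - x0‖ := by rw [← h4]
        _ ≤ _ := norm_sub_le _ _
    rw [norm_mul, Complex.norm_real] at h3
    linarith
  have hTc : IsCompact T := Metric.isCompact_of_isClosed_isBounded hTcl hTb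
  obtain ⟨r, hrT, hmax⟩ := hTc.exists_isMaxOn ⟨0, h0T⟩ continuous_id.continuousOn
  have hmax' : ∀ r' ∈ T, r' ≤ r := fun r' hr' => hmax hr'
  obtain ⟨hr0, hrC⟩ := hrT
  have key : ∃ t ∈ X, t ≠ e ∧ ip t.1 (x0 + (r : ℂ) * u) = t.2 := by
    by_contra hno
    push Not at hno
    have hlt : ∀ t ∈ X, t ≠ e → ip t.1 (x0 + (r : ℂ) * u) < t.2 := fun t ht hte =>
      lt_of_le_of_ne (hrC t ht) (hno t ht hte)
    have hev : ∀ t ∈ X, ∀ᶠ ε in 𝓝[>] (0 : ℝ), t ≠ e →
        ip t.1 (x0 + ((r + ε : ℝ) : ℂ) * u) < t.2 := by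
      intro t ht
      by_cases hte : t = e
      · exact Eventually.of_forall fun ε h => absurd hte h
      · have hc2 : Continuous fun ε : ℝ => ip t.1 (x0 + ((r + ε : ℝ) : ℂ) * u) := by
          have e2 : (fun ε : ℝ => ip t.1 (x0 + ((r + ε : ℝ) : ℂ) * u))
              = fun ε : ℝ => ip t.1 x0 + (r + ε) * ip t.1 u := by
            funext ε
            rw [endS_ip_add]
          rw [e2]
          fun_prop
        have h5 : ∀ᶠ ε in 𝓝 (0 : ℝ), ip t.1 (x0 + ((r + ε : ℝ) : ℂ) * u) < t.2 := by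
          have h6 : ip t.1 (x0 + ((r + 0 : ℝ) : ℂ) * u) < t.2 := by
            rw [add_zero]
            exact hlt t ht hte
          exact hc2.continuousAt.eventually_lt continuousAt_const h6
        filter_upwards [nhdsWithin_le_nhds h5] with ε hε _
        exact hε
    have hall : ∀ᶠ ε in 𝓝[>] (0 : ℝ), ∀ t ∈ X, t ≠ e →
        ip t.1 (x0 + ((r + ε : ℝ) : ℂ) * u) < t.2 := by
      rw [eventually_all_finset]
      exact hev
    obtain ⟨ε, hε, hεpos⟩ := (hall.and self_mem_nhdsWithin).exists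
    have hεpos' : 0 < ε := hεpos
    have hin : r + ε ∈ T := by
      refine ⟨by linarith, fun t ht => ?_⟩
      by_cases hte : t = e
      · rw [hte, endS_ip_add, hp, h0]
        simp
      · exact (hε t ht hte).le
    have := hmax' _ hin
    linarith
  obtain ⟨t, ht, hte, hon⟩ := key
  refine ⟨t, x0 + (r : ℂ) * u, r, ⟨hrC, he, ht, fun h => hte h.symm, ?_, hon⟩, ?_, rfl⟩
  · rw [endS_ip_add, hp, h0]
    simp
  · rcases hr0.lt_or_eq with h | h
    · exact h
    · exfalso
      rw [← h] at hon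
      have := h1 t ht hte
      simp at hon
      linarith

/-- points of the line `e` -/
theorem endS_line (e : HP) (hn : ‖e.1‖ = 1) (x0 z : ℂ) (h0 : ip e.1 x0 = e.2)
    (hz : ip e.1 z = e.2) : ∃ τ : ℝ, z = x0 + (τ : ℂ) * (I * e.1) := by
  have hsq : e.1.re ^ 2 + e.1.im ^ 2 = 1 := by
    have h := Complex.sq_norm e.1
    rw [hn, Complex.normSq_apply] at h
    nlinarith [h]
  refine ⟨ip (I * e.1) (z - x0), ?_⟩
  have h2 : e.1.re * (z.re - x0.re) + e.1.im * (z.im - x0.im) = 0 := by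
    unfold ip at h0 hz
    linarith
  unfold ip
  apply Complex.ext
  · simp
    linear_combination (-e.1.re) * h2 * (-1) - (z.re - x0.re) * hsq
  · simp
    linear_combination (-e.1.im) * h2 * (-1) - (z.im - x0.im) * hsq

theorem endS_seg (x0 u : ℂ) (a b c : ℝ) (h1 : a < b) (h2 : b < c) :
    x0 + (b : ℂ) * u ∈ openSegment ℝ (x0 + (a : ℂ) * u) (x0 + (c : ℂ) * u) := by
  have hca : 0 < c - a := by linarith
  refine ⟨(c - b) / (c - a), (b - a) / (c - a), by apply div_pos <;> linarith,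
    by apply div_pos <;> linarith, ?_, ?_⟩
  · field_simp
    ring
  · have hne : ((c : ℂ) - (a : ℂ)) ≠ 0 := by
      rw [← Complex.ofReal_sub]
      exact_mod_cast hca.ne'
    simp only [Complex.real_smul]
    push_cast
    field_simp
    ring

theorem endS_inj (x0 u : ℂ) (hu : u ≠ 0) (a b : ℝ)
    (h : x0 + (a : ℂ) * u = x0 + (b : ℂ) * u) : a = b := by
  have h1 : (a : ℂ) * u = (b : ℂ) * u := add_left_cancel h
  have h2 : (a : ℂ) = (b : ℂ) := mul_right_cancel₀ hu h1
  exact_mod_cast h2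

/-- both ends of a side, with all the data -/
theorem endS_both (h : VxxStatement) (X : Finset HP) (hX : Pg X) (e : HP) (he : e ∈ X) :
    ∃ (x0 : ℂ) (s t : HP) (a b : ℝ), ip e.1 x0 = e.2 ∧
      (∀ q ∈ X, q ≠ e → ip q.1 x0 < q.2) ∧ 0 < a ∧ 0 < b ∧
      VxOf X e s (x0 + ((-a : ℝ) : ℂ) * (I * e.1)) ∧ VxOf X e t (x0 + (b : ℂ) * (I * e.1)) ∧
      dt e.1 s.1 < 0 ∧ 0 < dt e.1 t.1 := by
  have hV := h X hX
  obtain ⟨-, -, -, -, -, -, -, -, hc, -⟩ := hV
  have hn := hX.unit e he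
  have hu : I * e.1 ≠ 0 := by
    intro h0
    have h1 : ‖I * e.1‖ = 1 := by rw [norm_mul, Complex.norm_I, hn, one_mul]
    rw [h0] at h1
    simp at h1
  obtain ⟨x0, h0, h1⟩ := hX.side e he
  obtain ⟨t, w, b, hw, hb, hwe⟩ := endS_half X hc e he x0 h0 h1 (I * e.1) hu (endS_perp e.1)
  obtain ⟨s, v, a, hv, ha, hve⟩ := endS_half X hc e he x0 h0 h1 (-(I * e.1))
    (neg_ne_zero.mpr hu) (by
      have := endS_perp e.1
      unfold ip at this ⊢
      rw [Complex.neg_re, Complex.neg_im]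
      linarith)
  have hve' : v = x0 + ((-a : ℝ) : ℂ) * (I * e.1) := by
    rw [hve]
    push_cast
    ring
  rw [hwe] at hw
  rw [hve'] at hv
  refine ⟨x0, s, t, a, b, h0, h1, ha, hb, hv, hw, ?_, ?_⟩
  · have h2 := hv.on₂
    rw [endS_ip_add, endS_ip_I] at h2
    have h3 := h1 s hv.mem₂ (fun hh => hv.ne hh.symm)
    by_contra hcon
    push Not at hcon
    nlinarith [mul_nonneg ha.le hcon]
  · have h2 := hw.on₂
    rw [endS_ip_add, endS_ip_I] at h2
    have h3 := h1 t hw.mem₂ (fun hh => hw.ne hh.symm)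
    by_contra hcon
    push Not at hcon
    nlinarith [mul_nonneg hb.le (neg_nonneg.mpr hcon)]

theorem endS_symm {X : Finset HP} {s t : HP} {v : ℂ} (h : VxOf X s t v) : VxOf X t s v :=
  ⟨h.cl, h.mem₂, h.mem₁, h.ne.symm, h.on₂, h.on₁⟩

/-- **Row END** -/
theorem endS (h : VxxStatement) : EndStmt := by
  intro X hX
  constructor
  · intro e he
    obtain ⟨x0, s, t, a, b, -, -, ha, hb, hv, hw, hs, ht⟩ := endS_both h X hX e he
    refine ⟨s, t, _, _, endS_symm hv, hw, ?_, a + b, by linarith, ?_⟩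
    · intro hst
      rw [hst] at hs
      linarith
    · push_cast
      ring
  · intro e e' z hz
    have he := hz.mem₁
    obtain ⟨x0, s, t, a, b, h0, h1, ha, hb, hv, hw, hs, ht⟩ := endS_both h X hX e he
    obtain ⟨hA, -, hC, -⟩ := h X hX
    have hn := hX.unit e he
    have hu : I * e.1 ≠ 0 := by
      intro h0
      have h1 : ‖I * e.1‖ = 1 := by rw [norm_mul, Complex.norm_I, hn, one_mul]
      rw [h0] at h1
      simp at h1
    obtain ⟨τ, hτ⟩ := endS_line e hn x0 z h0 hz.on₁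
    rcases lt_trichotomy τ b with hlt | heq | hgt
    · rcases lt_trichotomy τ (-a) with hlt2 | heq2 | hgt2
      · exfalso
        have hseg := endS_seg x0 (I * e.1) τ (-a) b hlt2 (by linarith)
        have h2 := (hC _ ⟨e, s, hv⟩ _ (hτ ▸ hz.cl) _ hw.cl hseg).2
        have h3 := endS_inj x0 _ hu _ _ h2
        linarith
      · have hz' : VxOf X e e' (x0 + ((-a : ℝ) : ℂ) * (I * e.1)) := by
          rw [← heq2, ← hτ]
          exact hz
        have hes : e' = s := by
          rcases hA e s _ hv e' hz.mem₂ hz'.on₂ with h2 | h2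
          · exact absurd h2.symm hz.ne
          · exact h2
        refine ⟨t, _, a + b, hw, ?_, by linarith, Or.inr ⟨by rw [hes]; exact hs, ?_⟩⟩
        · intro hte
          rw [hte, hes] at ht
          linarith
        · rw [hτ, heq2]
          push_cast
          ring
      · exfalso
        have hseg := endS_seg x0 (I * e.1) (-a) τ b hgt2 hlt
        have h2 := (hC _ ⟨e, e', hτ ▸ hz⟩ _ hv.cl _ hw.cl hseg).2
        have h3 := endS_inj x0 _ hu _ _ h2
        linarith
    · have hz' : VxOf X e e' (x0 + (b : ℂ) * (I * e.1)) := by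
        rw [← heq, ← hτ]
        exact hz
      have het : e' = t := by
        rcases hA e t _ hw e' hz.mem₂ hz'.on₂ with h2 | h2
        · exact absurd h2.symm hz.ne
        · exact h2
      refine ⟨s, _, a + b, hv, ?_, by linarith, Or.inl ⟨by rw [het]; exact ht, ?_⟩⟩
      · intro hse
        rw [hse, het] at hs
        linarith
      · rw [hτ, heq]
        push_cast
        ring
    · exfalso
      have hseg := endS_seg x0 (I * e.1) (-a) b τ (by linarith) hgt
      have h2 := (hC _ ⟨e, t, hw⟩ _ hv.cl _ (hτ ▸ hz.cl) hseg).2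
      have h3 := endS_inj x0 _ hu _ _ h2
      linarith

end Pool.Agent.QUD.H34
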