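import Pool.Agent.QUD.StmtsL

/-!
# Squad QUD, row TRV

If the lines of the opposite sides `a`, `c` of a convex quadrilateral meet behind `d`, then a shortest
segment between `a` and `c` touches `d`.
-/

set_option autoImplicit false

namespace Pool.Agent.QUD.H34

open MeasureTheory Complex Filter Topology Pool.Agent.H62T
open Pool.Agent.H16F (Sublin)
open Pool.Agent.AEU Pool.Agent.XQ Pool.Agent.QUD

theorem ip_line (s x e : ℂ) (t : ℝ) : ip s (x + (t : ℂ) * e) = ip s x + t * ip s e := by
  unfold ip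
  simp only [Complex.add_re, Complex.add_im, Complex.mul_re, Complex.mul_im, Complex.ofReal_re,
    Complex.ofReal_im]
  ring

theorem nsq (z : ℂ) : ‖z‖ ^ 2 = z.re ^ 2 + z.im ^ 2 := by
  rw [← Complex.normSq_eq_norm_sq, Complex.normSq_apply]
  ring

theorem dist_line (x y e : ℂ) (t : ℝ) : ‖x + (t : ℂ) * e - y‖ ^ 2 =
    ‖x - y‖ ^ 2 - 2 * t * ip e (y - x) + t ^ 2 * ‖e‖ ^ 2 := by
  rw [nsq, nsq, nsq]
  unfold ip
  simp only [Complex.add_re, Complex.add_im, Complex.sub_re, Complex.sub_im, Complex.mul_re,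
    Complex.mul_im, Complex.ofReal_re, Complex.ofReal_im]
  ring

theorem move {X : Finset HP} {x y e : ℂ} (he : ‖e‖ = 1) (hx : x ∈ Cl X)
    (hact : ∀ s ∈ X, ip s.1 x < s.2 ∨ ip s.1 e ≤ 0) (hz : 0 < ip e (y - x)) :
    ∃ t : ℝ, 0 < t ∧ x + (t : ℂ) * e ∈ Cl X ∧ ‖x + (t : ℂ) * e - y‖ < ‖x - y‖ := by
  have h1 : ∀ s ∈ X, ∀ᶠ t : ℝ in 𝓝[>] 0, ip s.1 (x + (t : ℂ) * e) ≤ s.2 := by
    intro s hs
    rcases hact s hs with h | h
    · have hc : Tendsto (fun t : ℝ => ip s.1 x + t * ip s.1 e) (𝓝[>] 0)
          (𝓝 (ip s.1 x + 0 * ip s.1 e)) := by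
        refine Tendsto.mono_left ?_ nhdsWithin_le_nhds
        exact Continuous.tendsto (by fun_prop) 0
      rw [zero_mul, add_zero] at hc
      filter_upwards [hc.eventually_lt_const h] with t ht
      rw [ip_line]
      exact ht.le
    · filter_upwards [self_mem_nhdsWithin] with t ht
      rw [ip_line]
      have h0 : ip s.1 x ≤ s.2 := hx s hs
      have ht' : 0 < t := ht
      nlinarith
  have h2 : ∀ᶠ t : ℝ in 𝓝[>] 0, ∀ s ∈ X, ip s.1 (x + (t : ℂ) * e) ≤ s.2 :=
    (Filter.eventually_all_finset X).2 h1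
  have h3 : ∀ᶠ t : ℝ in 𝓝[>] (0 : ℝ), t < 2 * ip e (y - x) :=
    (tendsto_id.mono_left nhdsWithin_le_nhds).eventually_lt_const (by linarith)
  have h4 : ∀ᶠ t : ℝ in 𝓝[>] (0 : ℝ), 0 < t := self_mem_nhdsWithin
  obtain ⟨t, ht, ht0, ht1⟩ := (h2.and (h4.and h3)).exists
  refine ⟨t, ht0, ht, ?_⟩
  refine lt_of_pow_lt_pow_left₀ 2 (norm_nonneg _) ?_
  rw [dist_line, he]
  nlinarith

/-- a shortest segment between the sides `a` and `c` touches `d` -/
theorem dact (hopp : OppStmt) {a b c d : HP} (hC : Cyc a b c d) (hac : dt a.1 c.1 < 0) {x y : ℂ}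
    (hx : x ∈ Cl {a, b, c, d}) (hy : y ∈ Cl {a, b, c, d}) (hax : ip a.1 x = a.2)
    (hcy : ip c.1 y = c.2)
    (hmin : ∀ x' ∈ Cl {a, b, c, d}, ∀ y' ∈ Cl {a, b, c, d}, ip a.1 x' = a.2 → ip c.1 y' = c.2 →
      ‖x - y‖ ≤ ‖x' - y'‖) : ip d.1 x = d.2 ∨ ip d.1 y = d.2 := by
  by_contra hcon
  push Not at hcon
  have ma : a ∈ ({a, b, c, d} : Finset HP) := by simp
  have mc : c ∈ ({a, b, c, d} : Finset HP) := by simp
  have md : d ∈ ({a, b, c, d} : Finset HP) := by simp
  have hdx : ip d.1 x < d.2 := lt_of_le_of_ne (hx d md) hcon.1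
  have hdy : ip d.1 y < d.2 := lt_of_le_of_ne (hy d md) hcon.2
  have hcx : ip c.1 x < c.2 := lt_of_le_of_ne (hx c mc) (hopp a b c d hC x hx hax)
  have hay : ip a.1 y < a.2 := by
    refine lt_of_le_of_ne (hy a ma) fun h => ?_
    exact hopp a b c d hC y hy h hcy
  have ua : ‖a.1‖ = 1 := hC.pg.unit a ma
  have uc : ‖c.1‖ = 1 := hC.pg.unit c mc
  have hab := hC.ab
  have hbc := hC.bc
  have hV1 : 0 ≤ dt a.1 (y - x) := by
    by_contra h
    push Not at h
    have hz : 0 < ip (-(I * a.1)) (y - x) := by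
      have e1 : ip (-(I * a.1)) (y - x) = -dt a.1 (y - x) := by
        unfold ip dt
        simp only [Complex.neg_re, Complex.neg_im, Complex.mul_re, Complex.mul_im, Complex.I_re,
          Complex.I_im]
        ring
      rw [e1]
      linarith
    have ea : ip a.1 (-(I * a.1)) = 0 := by
      unfold ip
      simp only [Complex.neg_re, Complex.neg_im, Complex.mul_re, Complex.mul_im, Complex.I_re,
        Complex.I_im]
      ring
    have eb : ip b.1 (-(I * a.1)) = -dt a.1 b.1 := by
      unfold ip dt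
      simp only [Complex.neg_re, Complex.neg_im, Complex.mul_re, Complex.mul_im, Complex.I_re,
        Complex.I_im]
      ring
    obtain ⟨t, ht0, ht1, ht2⟩ := move (X := {a, b, c, d}) (x := x) (y := y) (e := -(I * a.1))
      (by rw [norm_neg, norm_mul, Complex.norm_I, ua, one_mul]) hx (by
        intro s hs
        simp only [Finset.mem_insert, Finset.mem_singleton] at hs
        rcases hs with rfl | rfl | rfl | rfl
        · exact Or.inr ea.le
        · exact Or.inr (by rw [eb]; linarith)
        · exact Or.inl hcx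
        · exact Or.inl hdx) hz
    have h5 := hmin _ ht1 y hy (by rw [ip_line, ea, mul_zero, add_zero, hax]) hcy
    linarith
  have hV2 : 0 ≤ dt c.1 (y - x) := by
    by_contra h
    push Not at h
    have hz : 0 < ip (I * c.1) (x - y) := by
      have e1 : ip (I * c.1) (x - y) = -dt c.1 (y - x) := by
        unfold ip dt
        simp only [Complex.mul_re, Complex.mul_im, Complex.I_re, Complex.I_im, Complex.sub_re,
          Complex.sub_im]
        ring
      rw [e1]
      linarith
    have ec : ip c.1 (I * c.1) = 0 := by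
      unfold ip
      simp only [Complex.mul_re, Complex.mul_im, Complex.I_re, Complex.I_im]
      ring
    have eb : ip b.1 (I * c.1) = -dt b.1 c.1 := by
      unfold ip dt
      simp only [Complex.mul_re, Complex.mul_im, Complex.I_re, Complex.I_im]
      ring
    obtain ⟨t, ht0, ht1, ht2⟩ := move (X := {a, b, c, d}) (x := y) (y := x) (e := I * c.1)
      (by rw [norm_mul, Complex.norm_I, uc, one_mul]) hy (by
        intro s hs
        simp only [Finset.mem_insert, Finset.mem_singleton] at hs
        rcases hs with rfl | rfl | rfl | rfl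
        · exact Or.inl hay
        · exact Or.inr (by rw [eb]; linarith)
        · exact Or.inr ec.le
        · exact Or.inl hdy) hz
    have h5 := hmin x hx _ ht1 hax (by rw [ip_line, ec, mul_zero, add_zero, hcy])
    rw [norm_sub_rev x, norm_sub_rev x] at h5
    linarith
  have h1 : ip a.1 (y - x) < 0 := by
    have : ip a.1 (y - x) = ip a.1 y - ip a.1 x := by
      unfold ip
      simp only [Complex.sub_re, Complex.sub_im]
      ring
    rw [this, hax]
    linarith
  have h2 : 0 < ip c.1 (y - x) := by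
    have : ip c.1 (y - x) = ip c.1 y - ip c.1 x := by
      unfold ip
      simp only [Complex.sub_re, Complex.sub_im]
      ring
    rw [this, hcy]
    linarith
  have h3 : dt c.1 a.1 * ‖y - x‖ ^ 2 =
      dt c.1 (y - x) * ip a.1 (y - x) - ip c.1 (y - x) * dt a.1 (y - x) := by
    rw [nsq]
    unfold dt ip
    ring
  have h4 : dt c.1 a.1 = -dt a.1 c.1 := by
    unfold dt
    ring
  have h5 : 0 < ‖y - x‖ ^ 2 := by
    have : y - x ≠ 0 := by
      intro h0
      rw [h0] at h1
      unfold ip at h1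
      simp at h1
    positivity
  have h6 : 0 < dt c.1 a.1 * ‖y - x‖ ^ 2 := by
    rw [h4]
    exact mul_pos (by linarith) h5
  nlinarith [mul_nonneg hV2 (neg_nonneg.2 h1.le), mul_nonneg h2.le hV1]

theorem trv (hseg : SegStmt) (hopp : OppStmt) (vxx : VxxStatement) (hul : HulStatement)
    (per : PerStatement) (hlam : LamStatement) (mixS : MixStatement) (t3x : T3xStatement) :
    TrvStmt := by
  intro a b c d hC hac h hh hfit htouch
  have ma : a ∈ ({a, b, c, d} : Finset HP) := by simp
  have mc : c ∈ ({a, b, c, d} : Finset HP) := by simp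
  have md : d ∈ ({a, b, c, d} : Finset HP) := by simp
  obtain ⟨nab, nac, nad, nbc, nbd, ncd⟩ := hC.ne
  have ta : a ∈ touch {a, b, c, d} h := htouch (by simp)
  have tb : b ∈ touch {a, b, c, d} h := htouch (by simp)
  have tc : c ∈ touch {a, b, c, d} h := htouch (by simp)
  obtain ⟨x₀, hx₀, y₀, hy₀, hax₀, hcy₀, hmin, hsub, hfits, hta, htc, hlen, hlow⟩ :=
    hseg {a, b, c, d} hC.pg a ma c mc
  have hle := hlow h hh hfit ta tc
  rcases hle.lt_or_eq with hlt | heq
  · refine ⟨hf ![x₀, y₀], hsub, hfits, ?_, by rw [hlen]; exact hlt⟩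
    have htd : d ∈ touch {a, b, c, d} (hf ![x₀, y₀]) := by
      have h1 := ((mixS {a, b, c, d}).2.2 1 ![x₀, y₀] (by
        intro i
        fin_cases i
        · exact hx₀
        · exact hy₀)).2 d
      rw [h1]
      refine ⟨md, ?_⟩
      rcases dact hopp hC hac hx₀ hy₀ hax₀ hcy₀ hmin with h2 | h2
      · exact ⟨0, h2⟩
      · exact ⟨1, h2⟩
    have hcard : ({a, c, d} : Finset HP).card = 3 := by
      rw [Finset.card_insert_of_notMem (by simp [nac, nad]),
        Finset.card_insert_of_notMem (by simp [ncd]), Finset.card_singleton]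
    rw [← hcard]
    refine Finset.card_le_card ?_
    intro s hs
    simp only [Finset.mem_insert, Finset.mem_singleton] at hs
    rcases hs with rfl | rfl | rfl
    · exact hta
    · exact htc
    · exact htd
  · obtain ⟨-, -, -, -, -, -, -, -, -, -, hcont⟩ := vxx {a, b, c, d} hC.pg
    obtain ⟨x, hxi, hx, hax⟩ := hcont h hh hfit a ta
    obtain ⟨y, hyi, hy, hcy⟩ := hcont h hh hfit c tc
    have h1 : ∀ w, hf ![x, y] w ≤ h w := (hul 1 ![x, y]).2.2.2.1 h (by
      intro i
      fin_cases i
      · exact hxi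
      · exact hyi)
    have h2 := (hlam.2.1 (hf ![x, y]) h (hul 1 ![x, y]).1 hh h1).1
    rw [per.1, ← heq] at h2
    have h3 : ‖x - y‖ ≤ ‖x₀ - y₀‖ := by linarith
    have h4 := dact hopp hC hac hx hy hax hcy (fun x' hx' y' hy' h5 h6 =>
      h3.trans (hmin x' hx' y' hy' h5 h6))
    have td : d ∈ touch {a, b, c, d} h := by
      unfold touch
      rw [Finset.mem_filter]
      refine ⟨md, le_antisymm (hfit d md) ?_⟩
      rcases h4 with h5 | h5
      · rw [← h5]; exact hxi d.1
      · rw [← h5]; exact hyi d.1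
    have hcard : ({a, b, c, d} : Finset HP).card = 4 := by
      rw [Finset.card_insert_of_notMem (by simp [nab, nac, nad]),
        Finset.card_insert_of_notMem (by simp [nbc, nbd]),
        Finset.card_insert_of_notMem (by simp [ncd]), Finset.card_singleton]
    obtain ⟨t, ht, h', hs', hf', hsub', hlt'⟩ := t3x {a, b, c, d} hC.pg h hh hfit {a, b, c, d} (by
      intro s hs
      simp only [Finset.mem_insert, Finset.mem_singleton] at hs
      rcases hs with rfl | rfl | rfl | rfl
      · exact ta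
      · exact tb
      · exact tc
      · exact td) hcard
    refine ⟨h', hs', hf', ?_, hlt'⟩
    have h7 := Finset.card_le_card hsub'
    rw [Finset.card_erase_of_mem ht, hcard] at h7
    exact h7

end Pool.Agent.QUD.H34
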