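import Pool.Agent.QUD.StmtsU

/-!
Squad QUD (MP_5b0138_an), row UQA (helper34): items of the type A.
-/

set_option autoImplicit false

namespace Pool.Agent.QUD.H34

open MeasureTheory Filter Topology Real Set Pool.Agent.AEU Pool.Agent.AEU.H12 Pool.Agent.XQ
  Pool.Agent.XQ.U

/-- the parameters of an item -/
noncomputable def tr (p : ℝ × ℝ) : ℝ × ℝ := (π / p.1, π / p.2)

lemma oA_cons_pos {p : ℝ × ℝ} (l : List (ℝ × ℝ)) (h : obt p) : oA (p :: l) = p :: oA l := by
  classical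
  unfold oA
  rw [List.filter_cons_of_pos (by simpa using h)]

lemma oA_cons_neg {p : ℝ × ℝ} (l : List (ℝ × ℝ)) (h : ¬ obt p) : oA (p :: l) = oA l := by
  classical
  unfold oA
  rw [List.filter_cons_of_neg (by simpa using h)]

lemma oA_nil : oA [] = [] := by
  classical
  unfold oA
  rfl

lemma sum_cA (l : List (ℝ × ℝ)) :
    (l.map cA).sum = (((oA l).map tr).map fun p => FA p.1 * FA p.2).sum := by
  induction l with
  | nil => rw [oA_nil]; simp
  | cons p l ih =>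
    by_cases h : obt p
    · rw [oA_cons_pos l h, List.map_cons, List.sum_cons, ih, List.map_cons, List.map_cons,
        List.sum_cons]
      congr 1
      simp [cA, h, tr]
    · rw [oA_cons_neg l h, List.map_cons, List.sum_cons, ih]
      simp [cA, h]

lemma sum_dA (l : List (ℝ × ℝ)) (z : ℝ) :
    (l.map (dA z)).sum = (((oA l).map tr).map fun p => DR p.1 p.2 z).sum := by
  induction l with
  | nil => rw [oA_nil]; simp
  | cons p l ih =>
    by_cases h : obt p
    · rw [oA_cons_pos l h, List.map_cons, List.sum_cons, ih, List.map_cons, List.map_cons,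
        List.sum_cons]
      congr 1
      simp [dA, h, tr]
    · rw [oA_cons_neg l h, List.map_cons, List.sum_cons, ih]
      simp [dA, h]

lemma mem_oA {l : List (ℝ × ℝ)} {p : ℝ × ℝ} (h : p ∈ oA l) : p ∈ l ∧ obt p := by
  classical
  unfold oA at h
  rw [List.mem_filter] at h
  exact ⟨h.1, by simpa using h.2⟩

lemma kil_of {l : List (ℝ × ℝ)} (h : Itm l) {p : ℝ × ℝ} (hp : p ∈ l) : Kil p := by
  rcases h with rfl | ⟨a, b, rfl, hk⟩ | ⟨a, b, c, rfl, hk, hk', -⟩
  · simp at hp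
  · rw [List.mem_singleton] at hp
    rw [hp]; exact hk
  · rw [List.mem_cons, List.mem_singleton] at hp
    rcases hp with rfl | rfl
    · exact hk
    · exact hk'

lemma inv_mem {a : ℝ} (h : π / 2 < a) (h' : a < π) : π / a ∈ Ioo (1 : ℝ) 2 := by
  have hp := Real.pi_pos
  have ha : 0 < a := by linarith
  constructor
  · rw [lt_div_iff₀ ha]; linarith
  · rw [div_lt_iff₀ ha]; linarith

lemma tr_mem {l : List (ℝ × ℝ)} (h : Itm l) : ∀ p ∈ (oA l).map tr,
    p.1 ∈ Ioo (1 : ℝ) 2 ∧ p.2 ∈ Ioo (1 : ℝ) 2 := by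
  intro p hp
  rw [List.mem_map] at hp
  obtain ⟨q, hq, rfl⟩ := hp
  obtain ⟨h1, h2⟩ := mem_oA hq
  have hk := kil_of h h1
  exact ⟨inv_mem h2.1 hk.2.1, inv_mem h2.2 hk.2.2.2.1⟩

lemma inv_inj {a b : ℝ} (ha : 0 < a) (hb : 0 < b) (h : π / a = π / b) : a = b := by
  have hp := Real.pi_pos
  rw [div_eq_div_iff ha.ne' hb.ne'] at h
  have := mul_left_cancel₀ hp.ne' h
  exact this.symm

lemma inv_lt {a b : ℝ} (ha : 0 < a) (hb : 0 < b) (h : π / a < π / b) : b < a := by
  have hp := Real.pi_pos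
  by_contra hc
  have : π / b ≤ π / a := by
    apply div_le_div_of_nonneg_left hp.le ha (not_lt.mp hc)
  linarith

lemma map_tr_one {l : List (ℝ × ℝ)} {p : ℝ × ℝ} (h : l.map tr = [p]) :
    ∃ q, l = [q] ∧ tr q = p := by
  cases l with
  | nil => simp at h
  | cons a l =>
    cases l with
    | nil =>
      rw [List.map_cons, List.map_nil] at h
      exact ⟨a, rfl, by simpa using h⟩
    | cons b l => simp at h

/-- the case of at most one item of the type A on the first side -/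
lemma one_case (h1 : CoreAStmt) {l l' : List (ℝ × ℝ)} (hl : Itm l) (hl' : Itm l')
    (hc : (l.map cA).sum = (l'.map cA).sum)
    (hd : ∀ᶠ z in 𝓝 (0 : ℝ), (l.map (dA z)).sum = (l'.map (dA z)).sum)
    (hlen : (oA l).length ≤ 1) :
    (oA l = [] ∧ oA l' = []) ∨ (∃ p q, oA l = [p] ∧ oA l' = [q] ∧ (p = q ∨ p = q.swap)) := by
  have key := h1 ((oA l).map tr) ((oA l').map tr) (by simpa using hlen) (tr_mem hl) (tr_mem hl')
    (by rw [← sum_cA, ← sum_cA]; exact hc)
    (by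
      filter_upwards [hd] with z hz
      rw [← sum_dA, ← sum_dA]; exact hz)
  rcases key with ⟨h2, h3⟩ | ⟨p, q, h2, h3, h4⟩
  · left
    rw [List.map_eq_nil_iff] at h2 h3
    exact ⟨h2, h3⟩
  · right
    obtain ⟨p', hp', hpp⟩ := map_tr_one h2
    obtain ⟨q', hq', hqq⟩ := map_tr_one h3
    have kp := kil_of hl (mem_oA (l := l) (p := p') (by rw [hp']; simp)).1
    have kq := kil_of hl' (mem_oA (l := l') (p := q') (by rw [hq']; simp)).1
    refine ⟨p', q', hp', hq', ?_⟩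
    rcases h4 with h4 | h4
    · left
      rw [← hpp, ← hqq] at h4
      have e1 : π / p'.1 = π / q'.1 := congrArg Prod.fst h4
      have e2 : π / p'.2 = π / q'.2 := congrArg Prod.snd h4
      exact Prod.ext (inv_inj kp.1 kq.1 e1) (inv_inj kp.2.2.1 kq.2.2.1 e2)
    · right
      rw [← hpp, ← hqq] at h4
      have e1 : π / p'.1 = π / q'.2 := congrArg Prod.fst h4
      have e2 : π / p'.2 = π / q'.1 := congrArg Prod.snd h4
      exact Prod.ext (inv_inj kp.1 kq.2.2.1 e1) (inv_inj kp.2.2.1 kq.1 e2)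

/-- two items of the type A -/
lemma two_items {l : List (ℝ × ℝ)} (hl : Itm l) (hlen : ¬ (oA l).length ≤ 1) :
    ∃ a b c, l = [(a, b), (a, c)] ∧ Kil (a, b) ∧ Kil (a, c) ∧ obt (a, b) ∧ obt (a, c) := by
  have hle : ∀ l : List (ℝ × ℝ), (oA l).length ≤ l.length := by
    intro l
    classical
    unfold oA
    exact List.length_filter_le _ _
  rcases hl with rfl | ⟨a, b, rfl, hk⟩ | ⟨a, b, c, rfl, hk, hk', -⟩
  · exact absurd (le_trans (hle _) (by simp)) hlen
  · exact absurd (le_trans (hle _) (by simp)) hlen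
  · refine ⟨a, b, c, rfl, hk, hk', ?_, ?_⟩
    · by_contra h
      apply hlen
      rw [oA_cons_neg _ h]
      exact le_trans (hle _) (by simp)
    · by_contra h
      apply hlen
      by_cases h0 : obt (a, b)
      · rw [oA_cons_pos _ h0, oA_cons_neg _ h, oA_nil]; simp
      · rw [oA_cons_neg _ h0]
        exact le_trans (hle _) (by simp)

theorem uqa (h1 : CoreAStmt) (_h2 : MonoStmt) (h3 : Ca2Stmt) : UqaStmt := by
  intro l l' hl hl' hc hd
  by_cases hlen : (oA l).length ≤ 1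
  · rcases one_case h1 hl hl' hc hd hlen with h | h
    · exact Or.inl h
    · exact Or.inr (Or.inl h)
  by_cases hlen' : (oA l').length ≤ 1
  · rcases one_case h1 hl' hl hc.symm (hd.mono fun z hz => hz.symm) hlen' with h | ⟨p, q, e1, e2, e⟩
    · exact Or.inl ⟨h.2, h.1⟩
    · refine Or.inr (Or.inl ⟨q, p, e2, e1, ?_⟩)
      rcases e with e | e
      · exact Or.inl e.symm
      · right
        rw [e, Prod.swap_swap]
  obtain ⟨a, b, c, rfl, kb, kc, ob, oc⟩ := two_items hl hlen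
  obtain ⟨a', b', c', rfl, kb', kc', ob', oc'⟩ := two_items hl' hlen'
  right; right
  refine ⟨a, b, c, a', b', c', rfl, rfl, ob.1, ob.2, oc.2, ob'.1, ob'.2, oc'.2, ?_⟩
  have pa : 0 < a := kb.1
  have pb : 0 < b := kb.2.2.1
  have pc : 0 < c := kc.2.2.1
  have pa' : 0 < a' := kb'.1
  have pb' : 0 < b' := kb'.2.2.1
  have pc' : 0 < c' := kc'.2.2.1
  have key := h3 (π / a) (π / b) (π / c) (π / a') (π / b') (π / c')
    (inv_mem ob.1 kb.2.1) (inv_mem ob.2 kb.2.2.2.1) (inv_mem oc.2 kc.2.2.2.1)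
    (inv_mem ob'.1 kb'.2.1) (inv_mem ob'.2 kb'.2.2.2.1) (inv_mem oc'.2 kc'.2.2.2.1)
    (by
      filter_upwards [hd] with z hz
      simpa [dA, ob, oc, ob', oc'] using hz)
  rcases key with h | h | h | h | h
  · exact Or.inr (Or.inl ⟨inv_inj pa pa' h, ob.1, ob.2, oc.2, ob'.2, oc'.2⟩)
  · obtain ⟨r1, r2, r3, r4, r5⟩ := h
    exact Or.inr (Or.inr (Or.inr (Or.inl (Or.inl ⟨ob.1, inv_inj pb' pa r1, inv_inj pc' pa r2,
      inv_lt pb pa r3, inv_lt pc pa r4, inv_lt pa' pa r5⟩))))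
  · obtain ⟨r1, r2, r3, r4, r5⟩ := h
    exact Or.inr (Or.inr (Or.inr (Or.inr (Or.inl ⟨ob'.1, inv_inj pb pa' r1, inv_inj pc pa' r2,
      inv_lt pb' pa' r3, inv_lt pc' pa' r4, inv_lt pa pa' r5⟩))))
  · obtain ⟨r1, r2, r3, r4⟩ := h
    refine Or.inr (Or.inr (Or.inr (Or.inl (Or.inr (Or.inl ⟨ob.2, inv_inj pb pc r1,
      inv_lt pa pb r2, inv_lt pa' pb r3, ?_⟩)))))
    rcases r4 with ⟨r4, r5⟩ | ⟨r4, r5⟩
    · exact Or.inl ⟨inv_inj pb' pb r4, inv_lt pc' pb r5⟩
    · exact Or.inr ⟨inv_inj pc' pb r4, inv_lt pb' pb r5⟩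
  · obtain ⟨r1, r2, r3, r4⟩ := h
    refine Or.inr (Or.inr (Or.inr (Or.inr (Or.inr (Or.inl ⟨ob'.2, inv_inj pb' pc' r1,
      inv_lt pa' pb' r2, inv_lt pa pb' r3, ?_⟩)))))
    rcases r4 with ⟨r4, r5⟩ | ⟨r4, r5⟩
    · exact Or.inl ⟨inv_inj pb pb' r4, inv_lt pc pb' r5⟩
    · exact Or.inr ⟨inv_inj pc pb' r4, inv_lt pb pb' r5⟩

end Pool.Agent.QUD.H34
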